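import Pool.Agent.Helper8.BR.KF

/-!
The cut inequality for orthogonal projections: for every vertex set `U`,
`sum over the cut of min (D, 2 - D)` is at least `sum over the cut of (p_u - p_v)`.
-/

set_option autoImplicit false

namespace Pool.Agent.Helper8.BR

open Matrix Finset

/-- squared length of `P (e_x - e_y)` for a projection `P` -/
def DD {V : Type*} (P : Matrix V V ℝ) (x y : V) : ℝ := P x x + P y y - 2 * P x y

section sumtype

variable {α β : Type*} [Fintype α] [DecidableEq α] [Fintype β] [DecidableEq β]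

theorem trace_mul_lap {V : Type*} [Fintype V] [DecidableEq V] (P W : Matrix V V ℝ)
    (hs : P.IsSymm) : Matrix.trace (P * lap W) = ∑ x, ∑ y, W x y * (P x x - P x y) := by
  have h1 : ∀ x, (P * lap W) x x = P x x * (∑ y, W x y) - ∑ y, P x y * W y x := by
    intro x
    rw [lap, Matrix.mul_sub, Matrix.sub_apply, Matrix.mul_diagonal, Matrix.mul_apply]
  simp only [Matrix.trace, Matrix.diag_apply, h1, mul_sub, Finset.sum_sub_distrib, Finset.mul_sum]
  congr 1
  · exact Finset.sum_congr rfl (fun x _ => Finset.sum_congr rfl (fun y _ => by ring))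
  · rw [Finset.sum_comm]
    refine Finset.sum_congr rfl (fun x _ => Finset.sum_congr rfl (fun y _ => ?_))
    rw [hs.apply x y]; ring

theorem cut_sumtype [Nonempty α] [Nonempty β] (P : Matrix (α ⊕ β) (α ⊕ β) ℝ) (hs : P.IsSymm)
    (hP : P * P = P) (hrow : ∀ x, ∑ y, P x y = 0) :
    ∑ u : α, ∑ v : β, max (DD P (Sum.inl u) (Sum.inr v) - 1) 0
      ≤ (Fintype.card α : ℝ) * ∑ v : β, P (Sum.inr v) (Sum.inr v)
        + ∑ u : α, ∑ u' : α, P (Sum.inl u) (Sum.inl u') := by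
  classical
  set B : α → β → ℝ := fun u v => if 1 < DD P (Sum.inl u) (Sum.inr v) then 1 else 0 with hB
  have h0 : ∀ u v, 0 ≤ B u v := fun u v => by simp only [hB]; split_ifs <;> norm_num
  have h1 : ∀ u v, B u v ≤ 1 := fun u v => by simp only [hB]; split_ifs <;> norm_num
  have hmax : ∀ u v, max (DD P (Sum.inl u) (Sum.inr v) - 1) 0
      = B u v * (DD P (Sum.inl u) (Sum.inr v) - 1) := by
    intro u v
    simp only [hB]
    split_ifs with h
    · rw [max_eq_left (by linarith), one_mul]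
    · rw [max_eq_right (by linarith), zero_mul]
  have h := trace_split B h0 h1 P hs hP hrow
  rw [trace_mul_lap P _ hs] at h
  simp only [Fintype.sum_sum_type, WB_ll, WB_lr, WB_rl, WB_rr, zero_mul, Finset.sum_const_zero,
    add_zero, one_mul, Matrix.trace, Matrix.diag_apply] at h
  simp only [hmax]
  have e1 : ∀ u : α, ∑ u' : α, (P (Sum.inl u) (Sum.inl u) - P (Sum.inl u) (Sum.inl u'))
      = (Fintype.card α : ℝ) * P (Sum.inl u) (Sum.inl u)
        - ∑ u' : α, P (Sum.inl u) (Sum.inl u') := by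
    intro u
    rw [Finset.sum_sub_distrib, Finset.sum_const, Finset.card_univ, nsmul_eq_mul]
  have e2 : ∑ v : β, ∑ u : α, B u v * (P (Sum.inr v) (Sum.inr v) - P (Sum.inr v) (Sum.inl u))
      = ∑ u : α, ∑ v : β, B u v * (P (Sum.inr v) (Sum.inr v) - P (Sum.inl u) (Sum.inr v)) := by
    rw [Finset.sum_comm]
    refine Finset.sum_congr rfl (fun u _ => Finset.sum_congr rfl (fun v _ => ?_))
    rw [hs.apply (Sum.inl u) (Sum.inr v)]
  simp only [e1, Finset.sum_add_distrib, Finset.sum_sub_distrib] at h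
  rw [e2, ← Finset.mul_sum] at h
  have e3 : ∑ u : α, ∑ v : β, B u v * (DD P (Sum.inl u) (Sum.inr v) - 1)
      = ∑ u : α, ∑ v : β, B u v * (P (Sum.inl u) (Sum.inl u) - P (Sum.inl u) (Sum.inr v))
        + ∑ u : α, ∑ v : β, B u v * (P (Sum.inr v) (Sum.inr v) - P (Sum.inl u) (Sum.inr v))
        - ∑ u : α, ∑ v : β, B u v := by
    rw [← Finset.sum_add_distrib, ← Finset.sum_sub_distrib]
    refine Finset.sum_congr rfl (fun u _ => ?_)
    rw [← Finset.sum_add_distrib, ← Finset.sum_sub_distrib]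
    refine Finset.sum_congr rfl (fun v _ => ?_)
    rw [DD]; ring
  rw [e3]
  linarith

end sumtype

section cut

variable {V : Type*} [Fintype V] [DecidableEq V]

theorem cut_max (P : Matrix V V ℝ) (hs : P.IsSymm) (hP : P * P = P)
    (hrow : ∀ x, ∑ y, P x y = 0) (U : Finset V) :
    ∑ u ∈ U, ∑ v ∈ Uᶜ, max (DD P u v - 1) 0
      ≤ (U.card : ℝ) * ∑ v ∈ Uᶜ, P v v + ∑ u ∈ U, ∑ u' ∈ U, P u u' := by
  classical
  rcases U.eq_empty_or_nonempty with hU | hU
  · subst hU; simp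
  rcases (Uᶜ).eq_empty_or_nonempty with hU' | hU'
  · have : U = Finset.univ := by rwa [Finset.compl_eq_empty_iff] at hU'
    subst this
    simp [hrow]
  haveI : Nonempty {x // x ∈ U} := ⟨⟨hU.choose, hU.choose_spec⟩⟩
  haveI : Nonempty {x // x ∉ U} := ⟨⟨hU'.choose, Finset.mem_compl.mp hU'.choose_spec⟩⟩
  let e : {x // x ∈ U} ⊕ {x // x ∉ U} ≃ V := Equiv.sumCompl (fun x => x ∈ U)
  have h := cut_sumtype (α := {x // x ∈ U}) (β := {x // x ∉ U}) (P.submatrix e e)
    (by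
      ext x y
      simp only [Matrix.transpose_apply, Matrix.submatrix_apply]
      exact hs.apply _ _)
    (by rw [Matrix.submatrix_mul_equiv, hP])
    (fun x => by
      simp only [Matrix.submatrix_apply]
      rw [Equiv.sum_comp e (fun y => P (e x) y)]
      exact hrow _)
  have hl : ∀ u : {x // x ∈ U}, e (Sum.inl u) = u := fun u => rfl
  have hr : ∀ v : {x // x ∉ U}, e (Sum.inr v) = v := fun v => rfl
  have sl : ∀ f : V → ℝ, ∑ u : {x // x ∈ U}, f u = ∑ u ∈ U, f u := fun f =>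
    Finset.sum_coe_sort U f
  have sr : ∀ f : V → ℝ, ∑ v : {x // x ∉ U}, f v = ∑ v ∈ Uᶜ, f v := fun f =>
    (Finset.sum_subtype (Uᶜ) (fun x => by simp) f).symm
  simp only [DD, Matrix.submatrix_apply, hl, hr, Fintype.card_coe] at h
  rw [sr (fun v => P v v)] at h
  have h2 : ∑ u : {x // x ∈ U}, ∑ u' : {x // x ∈ U}, P u u' = ∑ u ∈ U, ∑ u' ∈ U, P u u' := by
    rw [← sl (fun u => ∑ u' ∈ U, P u u')]
    exact Finset.sum_congr rfl (fun u _ => sl (fun u' => P u u'))
  have h3 : ∑ u : {x // x ∈ U}, ∑ v : {x // x ∉ U}, max (P u u + P v v - 2 * P u v - 1) 0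
      = ∑ u ∈ U, ∑ v ∈ Uᶜ, max (P u u + P v v - 2 * P u v - 1) 0 := by
    rw [← sl (fun u => ∑ v ∈ Uᶜ, max (P u u + P v v - 2 * P u v - 1) 0)]
    exact Finset.sum_congr rfl (fun u _ => sr (fun v => max (P u u + P v v - 2 * P u v - 1) 0))
  rw [h2, h3] at h
  simp only [DD]
  exact h

theorem min_eq_sub (d : ℝ) : min d (2 - d) = d - 2 * max (d - 1) 0 := by
  rcases le_total d 1 with h | h
  · rw [min_eq_left (by linarith), max_eq_right (by linarith)]; ring
  · rw [min_eq_right (by linarith), max_eq_left (by linarith)]; ring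

/-- The cut inequality. -/
theorem cut_ineq (P : Matrix V V ℝ) (hs : P.IsSymm) (hP : P * P = P)
    (hrow : ∀ x, ∑ y, P x y = 0) (U : Finset V) :
    ∑ u ∈ U, ∑ v ∈ Uᶜ, (P u u - P v v) ≤ ∑ u ∈ U, ∑ v ∈ Uᶜ, min (DD P u v) (2 - DD P u v) := by
  have h := cut_max P hs hP hrow U
  have e1 : ∑ u ∈ U, ∑ v ∈ Uᶜ, min (DD P u v) (2 - DD P u v)
      = ∑ u ∈ U, ∑ v ∈ Uᶜ, DD P u v - 2 * ∑ u ∈ U, ∑ v ∈ Uᶜ, max (DD P u v - 1) 0 := by
    rw [Finset.mul_sum, ← Finset.sum_sub_distrib]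
    refine Finset.sum_congr rfl (fun u _ => ?_)
    rw [Finset.mul_sum, ← Finset.sum_sub_distrib]
    exact Finset.sum_congr rfl (fun v _ => min_eq_sub _)
  have e2 : ∑ u ∈ U, ∑ v ∈ Uᶜ, DD P u v = ∑ u ∈ U, ∑ v ∈ Uᶜ, (P u u - P v v)
      + 2 * ((U.card : ℝ) * ∑ v ∈ Uᶜ, P v v) - 2 * ∑ u ∈ U, ∑ v ∈ Uᶜ, P u v := by
    have e3 : (U.card : ℝ) * ∑ v ∈ Uᶜ, P v v = ∑ _u ∈ U, ∑ v ∈ Uᶜ, P v v := by
      rw [Finset.sum_const, nsmul_eq_mul]
    have e5 : ∀ u v, DD P u v = (P u u - P v v) + 2 * P v v - 2 * P u v := fun u v => by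
      rw [DD]; ring
    rw [e3]
    simp only [e5, Finset.sum_add_distrib, Finset.sum_sub_distrib, ← Finset.mul_sum]
  have e4 : ∑ u ∈ U, ∑ v ∈ Uᶜ, P u v = - ∑ u ∈ U, ∑ u' ∈ U, P u u' := by
    rw [← Finset.sum_neg_distrib]
    refine Finset.sum_congr rfl (fun u _ => ?_)
    have := Finset.sum_add_sum_compl U (fun y => P u y)
    rw [hrow u] at this
    linarith
  rw [e1, e2, e4]
  linarith

end cut

end Pool.Agent.Helper8.BR
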