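import Mathlib

/-!
The determinant maximum principle for split graphs (a direct proof of the Grone-Merris-Bai bound
for split graphs at the clique size, with weights in `[0,1]` on the bipartite part).
-/

set_option autoImplicit false

namespace Pool.Agent.Helper8.BR

open Matrix Finset

variable {α β : Type*} [Fintype α] [DecidableEq α] [Fintype β] [DecidableEq β]

/-- Exchange lemma: if all `Y u + Z v` together span a space of dimension `card α`, then some choice
of one vector for every `u` is linearly independent. -/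
theorem exists_transversal {E : Type*} [AddCommGroup E] [Module ℝ E] [FiniteDimensional ℝ E]
    [Nonempty β] (hE : Module.finrank ℝ E = Fintype.card α) (Y : α → E) (Z : β → E)
    (hspan : ∀ S : Submodule ℝ E, (∀ u v, Y u + Z v ∈ S) → S = ⊤) :
    ∃ φ : α → β, LinearIndependent ℝ (fun u => Y u + Z (φ u)) := by
  classical
  obtain ⟨φ, -, hφ⟩ := Finset.exists_max_image (Finset.univ : Finset (α → β))
    (fun φ => Module.finrank ℝ (Submodule.span ℝ (Set.range (fun u => Y u + Z (φ u)))))
    ⟨fun _ => Classical.arbitrary β, Finset.mem_univ _⟩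
  refine ⟨φ, ?_⟩
  by_contra hli
  set c : α → E := fun u => Y u + Z (φ u) with hc
  set S : Submodule ℝ E := Submodule.span ℝ (Set.range c) with hS
  have h1 : ∃ u0, c u0 ∈ Submodule.span ℝ (c '' (Set.univ \ {u0})) := by
    by_contra hcon
    push Not at hcon
    exact hli (linearIndependent_iff_notMem_span.mpr hcon)
  obtain ⟨u0, hu0⟩ := h1
  have h2 : S ≤ Submodule.span ℝ (c '' (Set.univ \ {u0})) := by
    rw [hS, Submodule.span_le]
    rintro x ⟨u, rfl⟩
    by_cases hu : u = u0
    · rw [hu]; exact hu0
    · exact Submodule.subset_span ⟨u, ⟨Set.mem_univ _, by simpa using hu⟩, rfl⟩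
  have h3 : ∀ v, Y u0 + Z v ∈ S := by
    intro v
    set c' : α → E := fun u => Y u + Z (Function.update φ u0 v u) with hc'
    have h4 : c '' (Set.univ \ {u0}) ⊆ Set.range c' := by
      rintro x ⟨u, ⟨-, hu⟩, rfl⟩
      refine ⟨u, ?_⟩
      have : u ≠ u0 := by simpa using hu
      simp only [hc', hc, Function.update_of_ne this]
    have h5 : S ≤ Submodule.span ℝ (Set.range c') := h2.trans (Submodule.span_mono h4)
    have h6 : Module.finrank ℝ (Submodule.span ℝ (Set.range c')) ≤ Module.finrank ℝ S :=
      hφ (Function.update φ u0 v) (Finset.mem_univ _)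
    have h7 : S = Submodule.span ℝ (Set.range c') := Submodule.eq_of_le_of_finrank_le h5 h6
    rw [h7]
    refine Submodule.subset_span ⟨u0, ?_⟩
    simp only [hc', Function.update_self]
  have h8 : ∀ u v, Y u + Z v ∈ S := by
    intro u v
    have e1 : c u ∈ S := Submodule.subset_span ⟨u, rfl⟩
    have e2 : Y u + Z v = c u + ((Y u0 + Z v) - (Y u0 + Z (φ u))) := by
      simp only [hc]; abel
    rw [e2]
    exact S.add_mem e1 (S.sub_mem (h3 v) (h3 (φ u)))
  have h9 : S = ⊤ := hspan S h8
  exact hli (linearIndependent_of_top_le_span_of_card_eq_finrank (by rw [← hS, h9]) hE.symm)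

/-- The sum of the column-wise derivatives of a determinant under a diagonal matrix. -/
theorem sum_cramer_diag (G : Matrix α α ℝ) (lam : α → ℝ) :
    ∑ u, Matrix.cramer G (fun i => lam i * G i u) u = (∑ i, lam i) * G.det := by
  have h1 : ∀ u, Matrix.cramer G (fun i => lam i * G i u) u
      = ∑ i, lam i * (G i u * G.adjugate u i) := by
    intro u
    rw [Matrix.cramer_eq_adjugate_mulVec]
    simp only [Matrix.mulVec, dotProduct]
    exact Finset.sum_congr rfl (fun i _ => by ring)
  simp only [h1]
  rw [Finset.sum_comm, Finset.sum_mul]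
  refine Finset.sum_congr rfl (fun i _ => ?_)
  rw [← Finset.mul_sum]
  congr 1
  have h2 := congrFun (congrFun (Matrix.mul_adjugate G) i) i
  simpa [Matrix.mul_apply] using h2

/-- The split graph bound: `s` eigenvectors orthogonal to the constants. -/
theorem split_sum [Nonempty β] (B : α → β → ℝ) (h0 : ∀ u v, 0 ≤ B u v) (h1 : ∀ u v, B u v ≤ 1)
    (a : α → α → ℝ) (b : α → β → ℝ) (lam : α → ℝ)
    (hU : ∀ i u, ∑ u', (a i u - a i u') + ∑ v, B u v * (a i u - b i v) = lam i * a i u)
    (hV : ∀ i v, ∑ u, B u v * (b i v - a i u) = lam i * b i v)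
    (hsum : ∀ i, ∑ u, a i u + ∑ v, b i v = 0)
    (hli : ∀ c : α → ℝ, (∀ u, ∑ i, c i * a i u = 0) → (∀ v, ∑ i, c i * b i v = 0) → c = 0) :
    ∑ i, lam i ≤ (Fintype.card α : ℝ) ^ 2 + ∑ u, ∑ v, B u v := by
  classical
  rcases isEmpty_or_nonempty α with hα | hα
  · simp
  -- the matrices
  set G : (α → β) → Matrix α α ℝ := fun φ => Matrix.of (fun i u => a i u - b i (φ u)) with hG
  -- a nonvanishing determinant
  have hne : ∃ φ, (G φ).det ≠ 0 := by
    obtain ⟨φ, hφ⟩ := exists_transversal (α := α) (β := β) (E := α → ℝ)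
      (Module.finrank_fintype_fun_eq_card ℝ) (fun u i => a i u) (fun v i => - b i v) (by
        intro S hS
        by_contra hne
        obtain ⟨f, hf0, hf⟩ := Submodule.exists_le_ker_of_lt_top S (lt_of_le_of_ne le_top hne)
        apply hf0
        have hfx : ∀ x : α → ℝ, f x = ∑ i, x i * f (Pi.single i 1) := by
          intro x
          have := LinearMap.pi_apply_eq_sum_univ f x
          rw [this]
          refine Finset.sum_congr rfl (fun i _ => ?_)
          simp only [smul_eq_mul]
          congr 2
          funext j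
          simp [Pi.single_apply, eq_comm]
        set c : α → ℝ := fun i => f (Pi.single i 1) with hc
        have hz : ∀ u v, ∑ i, c i * a i u = ∑ i, c i * b i v := by
          intro u v
          have h := hf (hS u v)
          rw [LinearMap.mem_ker, hfx] at h
          have h' : ∑ i, (a i u - b i v) * c i = 0 := by
            simpa [sub_eq_add_neg] using h
          have h'' : ∑ i, (a i u - b i v) * c i = ∑ i, c i * a i u - ∑ i, c i * b i v := by
            rw [← Finset.sum_sub_distrib]
            exact Finset.sum_congr rfl (fun i _ => by ring)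
          linarith
        obtain ⟨u0⟩ := hα
        obtain ⟨v0⟩ := ‹Nonempty β›
        have hA : ∀ u, ∑ i, c i * a i u = ∑ i, c i * a i u0 := fun u =>
          (hz u v0).trans (hz u0 v0).symm
        have hB : ∀ v, ∑ i, c i * b i v = ∑ i, c i * a i u0 := fun v => (hz u0 v).symm
        have htot : (∑ u, ∑ i, c i * a i u) + ∑ v, ∑ i, c i * b i v = 0 := by
          rw [Finset.sum_comm, Finset.sum_comm (s := (Finset.univ : Finset β)),
            ← Finset.sum_add_distrib]
          refine Finset.sum_eq_zero (fun i _ => ?_)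
          rw [← Finset.mul_sum, ← Finset.mul_sum, ← mul_add, hsum i, mul_zero]
        simp only [hA, hB, Finset.sum_const, Finset.card_univ, nsmul_eq_mul] at htot
        have hx : ∑ i, c i * a i u0 = 0 := by
          have hp : (0 : ℝ) < (Fintype.card α : ℝ) + (Fintype.card β : ℝ) := by
            have : 0 < Fintype.card α := Fintype.card_pos_iff.mpr ⟨u0⟩
            positivity
          have : ((Fintype.card α : ℝ) + (Fintype.card β : ℝ)) * ∑ i, c i * a i u0 = 0 := by
            linarith
          rcases mul_eq_zero.mp this with h | h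
          · linarith
          · exact h
        have hc0 : c = 0 := hli c (fun u => by rw [hA u, hx]) (fun v => by rw [hB v, hx])
        ext i
        have := congrFun hc0 i
        simpa [hc] using this)
    refine ⟨φ, ?_⟩
    have h2 : LinearIndependent ℝ (G φ)ᵀ.row := by
      have : (G φ)ᵀ.row = fun u => (fun i => a i u) + (fun i => - b i (φ u)) := by
        funext u i
        simp [hG, Matrix.row, sub_eq_add_neg]
      rw [this]; exact hφ
    have h3 : IsUnit (G φ)ᵀ := (Matrix.linearIndependent_rows_iff_isUnit).mp h2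
    have h4 := (Matrix.isUnit_iff_isUnit_det _).mp h3
    rw [Matrix.det_transpose] at h4
    exact h4.ne_zero
  -- the maximum
  obtain ⟨φ, -, hφ⟩ := Finset.exists_max_image (Finset.univ : Finset (α → β))
    (fun φ => |(G φ).det|) ⟨hne.choose, Finset.mem_univ _⟩
  set g : (α → β) → ℝ := fun φ => (G φ).det with hg
  set m : ℝ := |g φ| with hm
  have hmpos : 0 < m := by
    obtain ⟨ψ, hψ⟩ := hne
    exact lt_of_lt_of_le (abs_pos.mpr hψ) (hφ ψ (Finset.mem_univ _))
  obtain ⟨σ, hσ1, hσ2⟩ : ∃ σ : ℝ, (σ = 1 ∨ σ = -1) ∧ σ * g φ = m := by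
    rcases le_total 0 (g φ) with h | h
    · exact ⟨1, Or.inl rfl, by rw [hm, abs_of_nonneg h, one_mul]⟩
    · exact ⟨-1, Or.inr rfl, by rw [hm, abs_of_nonpos h]; ring⟩
  have hσm : ∀ ψ, σ * g ψ ≤ m := by
    intro ψ
    have h := hφ ψ (Finset.mem_univ _)
    rcases hσ1 with h' | h'
    · rw [h', one_mul]; exact (le_abs_self _).trans h
    · rw [h']; have := neg_abs_le (g ψ); simp only [hg] at *; linarith
  -- the columns
  have hupd : ∀ u w, Matrix.cramer (G φ) (fun i => a i u - b i w) u = g (Function.update φ u w) := by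
    intro u w
    rw [Matrix.cramer_apply]
    simp only [hg]
    congr 1
    ext i u'
    by_cases h : u' = u
    · subst h; simp [hG]
    · simp [hG, Matrix.updateCol_ne h, Function.update_of_ne h]
  have hcol : ∀ u u', Matrix.cramer (G φ) (fun i => (G φ) i u') u = if u = u' then g φ else 0 := by
    intro u u'
    rw [Matrix.cramer_row_self (G φ) (fun i => (G φ) i u') u' (fun j => rfl)]
    by_cases h : u = u'
    · subst h; simp [hg]
    · simp [h]
  have hexp : ∀ u, (fun i => lam i * (G φ) i u)
      = ∑ w, B u w • (fun i => a i u - b i w) + (∑ u', B u' (φ u)) • (fun i => (G φ) i u)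
        + ∑ u', (1 - B u' (φ u)) • ((fun i => a i u - b i (φ u')) - (fun i => (G φ) i u')) := by
    intro u
    funext i
    have e1 := hU i u
    have e2 := hV i (φ u)
    simp only [hG, Matrix.of_apply, Pi.add_apply, Finset.sum_apply, Pi.smul_apply, smul_eq_mul,
      Pi.sub_apply]
    rw [mul_sub, ← e1, ← e2, Finset.sum_mul]
    have e3 : ∑ u', (1 - B u' (φ u)) * (a i u - b i (φ u') - (a i u' - b i (φ u')))
        = ∑ u', (a i u - a i u') - ∑ u', B u' (φ u) * (a i u - a i u') := by
      rw [← Finset.sum_sub_distrib]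
      exact Finset.sum_congr rfl (fun u' _ => by ring)
    rw [e3]
    have e4 : ∑ u', B u' (φ u) * (b i (φ u) - a i u')
        = ∑ u', B u' (φ u) * (a i u - a i u') - ∑ u', B u' (φ u) * (a i u - b i (φ u)) := by
      rw [← Finset.sum_sub_distrib]
      exact Finset.sum_congr rfl (fun u' _ => by ring)
    rw [e4]
    ring
  have hval : ∀ u, Matrix.cramer (G φ) (fun i => lam i * (G φ) i u) u
      = ∑ w, B u w * g (Function.update φ u w) + (∑ u', B u' (φ u)) * g φ
        + ∑ u', (1 - B u' (φ u)) * (g (Function.update φ u (φ u')) - if u = u' then g φ else 0) := by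
    intro u
    rw [hexp u]
    simp only [map_add, map_sum, map_smul, map_sub, Pi.add_apply, Finset.sum_apply, Pi.smul_apply,
      Pi.sub_apply, smul_eq_mul, hupd, hcol, if_true]
  have htheta : (∑ i, lam i) * g φ = ∑ u, (∑ w, B u w * g (Function.update φ u w)
      + (∑ u', B u' (φ u)) * g φ
        + ∑ u', (1 - B u' (φ u)) * (g (Function.update φ u (φ u')) - if u = u' then g φ else 0)) := by
    rw [hg, ← sum_cramer_diag (G φ) lam]
    exact Finset.sum_congr rfl (fun u _ => hval u)
  have hbound : ∀ u, σ * (∑ w, B u w * g (Function.update φ u w)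
      + (∑ u', B u' (φ u)) * g φ
        + ∑ u', (1 - B u' (φ u)) * (g (Function.update φ u (φ u')) - if u = u' then g φ else 0))
      ≤ (∑ w, B u w + (Fintype.card α : ℝ) - 1 + B u (φ u)) * m := by
    intro u
    have b1 : σ * ∑ w, B u w * g (Function.update φ u w) ≤ (∑ w, B u w) * m := by
      rw [Finset.mul_sum, Finset.sum_mul]
      refine Finset.sum_le_sum (fun w _ => ?_)
      have := mul_le_mul_of_nonneg_left (hσm (Function.update φ u w)) (h0 u w)
      linarith [mul_left_comm σ (B u w) (g (Function.update φ u w))]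
    have b2 : σ * ((∑ u', B u' (φ u)) * g φ) = (∑ u', B u' (φ u)) * m := by
      rw [mul_left_comm, hσ2]
    have b3 : σ * ∑ u', (1 - B u' (φ u)) * (g (Function.update φ u (φ u')) - if u = u' then g φ else 0)
        ≤ ∑ u', ((1 - B u' (φ u)) * m - if u = u' then (1 - B u (φ u)) * m else 0) := by
      rw [Finset.mul_sum]
      refine Finset.sum_le_sum (fun u' _ => ?_)
      have h := mul_le_mul_of_nonneg_left (hσm (Function.update φ u (φ u')))
        (sub_nonneg.mpr (h1 u' (φ u)))
      by_cases huu : u = u'
      · subst huu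
        simp only [if_true]
        have e : σ * ((1 - B u (φ u)) * (g (Function.update φ u (φ u)) - g φ))
          = (1 - B u (φ u)) * (σ * g (Function.update φ u (φ u)) - σ * g φ) := by ring
        rw [e, hσ2]
        nlinarith
      · simp only [huu, if_false, sub_zero]
        linarith [mul_left_comm σ (1 - B u' (φ u)) (g (Function.update φ u (φ u')))]
    have b4 : ∑ u', ((1 - B u' (φ u)) * m - if u = u' then (1 - B u (φ u)) * m else 0)
        = ((Fintype.card α : ℝ) - ∑ u', B u' (φ u)) * m - (1 - B u (φ u)) * m := by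
      rw [Finset.sum_sub_distrib, ← Finset.sum_mul, Finset.sum_sub_distrib]
      simp
    rw [b4] at b3
    rw [mul_add, mul_add, b2]
    nlinarith
  have hfin : (∑ i, lam i) * m ≤ ((Fintype.card α : ℝ) ^ 2 + ∑ u, ∑ v, B u v) * m := by
    calc (∑ i, lam i) * m = σ * ((∑ i, lam i) * g φ) := by rw [← hσ2]; ring
      _ ≤ ∑ u, (∑ w, B u w + (Fintype.card α : ℝ) - 1 + B u (φ u)) * m := by
          rw [htheta, Finset.mul_sum]
          exact Finset.sum_le_sum (fun u _ => hbound u)
      _ ≤ ∑ u, (∑ w, B u w + (Fintype.card α : ℝ)) * m := by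
          refine Finset.sum_le_sum (fun u _ => ?_)
          exact mul_le_mul_of_nonneg_right (by linarith [h1 u (φ u)]) hmpos.le
      _ = ((Fintype.card α : ℝ) ^ 2 + ∑ u, ∑ v, B u v) * m := by
          rw [← Finset.sum_mul, Finset.sum_add_distrib]
          simp only [Finset.sum_const, Finset.card_univ, nsmul_eq_mul]
          ring
  exact le_of_mul_le_mul_right hfin hmpos

end Pool.Agent.Helper8.BR
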