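import Pool.Agent.Helper8.BR.Split

/-!
The trace inequality `tr (P L) <= s * tr P + |E|` for split graphs with a clique of size `s`.
-/

set_option autoImplicit false

namespace Pool.Agent.Helper8.BR

open Matrix Finset

variable {α β : Type*} [Fintype α] [DecidableEq α] [Fintype β] [DecidableEq β]

/-- At most `card α` orthonormal eigenvectors have eigenvalue larger than `card α`. -/
theorem card_le_of_gt (B : α → β → ℝ) (h1 : ∀ u v, B u v ≤ 1)
    {ι : Type*} [DecidableEq ι] (e : ι → α ⊕ β → ℝ) (lam : ι → ℝ) (T : Finset ι)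
    (hV : ∀ i ∈ T, ∀ v, ∑ u, B u v * (e i (Sum.inr v) - e i (Sum.inl u)) = lam i * e i (Sum.inr v))
    (horth : ∀ i ∈ T, ∀ j ∈ T, ∑ x, e i x * e j x = if i = j then 1 else 0)
    (hgt : ∀ i ∈ T, (Fintype.card α : ℝ) < lam i) : T.card ≤ Fintype.card α := by
  classical
  have hli : LinearIndependent ℝ (fun j : T => (fun u : α => e j (Sum.inl u))) := by
    rw [Fintype.linearIndependent_iff]
    intro g hg
    have hg' : ∀ u, ∑ j : T, g j * e j (Sum.inl u) = 0 := by
      intro u
      have := congrFun hg u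
      simpa [Finset.sum_apply] using this
    set y : α ⊕ β → ℝ := fun x => ∑ j : T, g j * e j x with hy
    have hyl : ∀ u, y (Sum.inl u) = 0 := hg'
    have hor : ∀ i j : T, ∑ x, e i x * e j x = if i = j then 1 else 0 := by
      intro i j
      rw [horth i i.2 j j.2]
      simp only [← Subtype.ext_iff]
    have hyy : ∑ x, y x * y x = ∑ j : T, g j ^ 2 := by
      calc ∑ x, y x * y x = ∑ i : T, ∑ j : T, g i * g j * ∑ x, e i x * e j x := by
            simp only [hy, Finset.sum_mul, Finset.mul_sum]
            rw [Finset.sum_comm]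
            refine Finset.sum_congr rfl (fun i _ => ?_)
            rw [Finset.sum_comm]
            exact Finset.sum_congr rfl (fun j _ => Finset.sum_congr rfl (fun x _ => by ring))
        _ = ∑ j : T, g j ^ 2 := by
            simp only [hor]
            refine Finset.sum_congr rfl (fun i _ => ?_)
            simp; ring
    have hyL : ∑ x, y x * (∑ j : T, g j * (lam j * e j x)) = ∑ j : T, lam j * g j ^ 2 := by
      calc ∑ x, y x * (∑ j : T, g j * (lam j * e j x))
          = ∑ i : T, ∑ j : T, g i * g j * lam i * ∑ x, e i x * e j x := by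
            simp only [hy, Finset.sum_mul, Finset.mul_sum]
            rw [Finset.sum_comm]
            refine Finset.sum_congr rfl (fun i _ => ?_)
            rw [Finset.sum_comm]
            exact Finset.sum_congr rfl (fun j _ => Finset.sum_congr rfl (fun x _ => by ring))
        _ = ∑ j : T, lam j * g j ^ 2 := by
            simp only [hor]
            refine Finset.sum_congr rfl (fun i _ => ?_)
            simp; ring
    have h3 : ∀ v, ∑ j : T, g j * (lam j * e j (Sum.inr v)) = (∑ u, B u v) * y (Sum.inr v) := by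
      intro v
      calc ∑ j : T, g j * (lam j * e j (Sum.inr v))
          = ∑ j : T, g j * ∑ u, B u v * (e j (Sum.inr v) - e j (Sum.inl u)) := by
            refine Finset.sum_congr rfl (fun j _ => ?_)
            rw [hV j j.2 v]
        _ = ∑ u, B u v * (y (Sum.inr v) - y (Sum.inl u)) := by
            simp only [hy, Finset.mul_sum, ← Finset.sum_sub_distrib]
            rw [Finset.sum_comm]
            exact Finset.sum_congr rfl (fun u _ => Finset.sum_congr rfl (fun j _ => by ring))
        _ = (∑ u, B u v) * y (Sum.inr v) := by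
            simp only [hyl, sub_zero, Finset.sum_mul]
    have h4 : ∑ x, y x * (∑ j : T, g j * (lam j * e j x))
        ≤ (Fintype.card α : ℝ) * ∑ x, y x * y x := by
      rw [Fintype.sum_sum_type, Fintype.sum_sum_type]
      simp only [hyl, zero_mul, Finset.sum_const_zero, zero_add, h3, Finset.mul_sum]
      refine Finset.sum_le_sum (fun v _ => ?_)
      have hb : ∑ u, B u v ≤ (Fintype.card α : ℝ) := by
        calc ∑ u, B u v ≤ ∑ _u : α, (1 : ℝ) := Finset.sum_le_sum (fun u _ => h1 u v)
          _ = (Fintype.card α : ℝ) := by simp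
      nlinarith [mul_le_mul_of_nonneg_right hb (mul_self_nonneg (y (Sum.inr v)))]
    rw [hyL, hyy] at h4
    have h5 : ∑ j : T, (lam j - (Fintype.card α : ℝ)) * g j ^ 2 ≤ 0 := by
      have : ∑ j : T, (lam j - (Fintype.card α : ℝ)) * g j ^ 2
          = ∑ j : T, lam j * g j ^ 2 - (Fintype.card α : ℝ) * ∑ j : T, g j ^ 2 := by
        rw [Finset.mul_sum, ← Finset.sum_sub_distrib]
        exact Finset.sum_congr rfl (fun j _ => by ring)
      rw [this]; linarith
    have h6 : ∀ j : T, 0 ≤ (lam j - (Fintype.card α : ℝ)) * g j ^ 2 := fun j =>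
      mul_nonneg (sub_nonneg.mpr (hgt j j.2).le) (sq_nonneg _)
    intro j
    have h7 := (Finset.sum_eq_zero_iff_of_nonneg (fun j _ => h6 j)).mp
      (le_antisymm h5 (Finset.sum_nonneg (fun j _ => h6 j))) j (Finset.mem_univ j)
    rcases mul_eq_zero.mp h7 with h | h
    · linarith [hgt j j.2]
    · exact pow_eq_zero_iff (two_ne_zero) |>.mp h
  have h8 := hli.fintype_card_le_finrank
  rw [Module.finrank_fintype_fun_eq_card] at h8
  simpa using h8

theorem sum_lap_mulVec {V : Type*} [Fintype V] [DecidableEq V] (W : Matrix V V ℝ)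
    (hW : ∀ x y, W x y = W y x) (f : V → ℝ) : ∑ x, (lap W *ᵥ f) x = 0 := by
  have h1 : ∑ x, (lap W *ᵥ f) x = ∑ x, ∑ y, W x y * (f x - f y) :=
    Finset.sum_congr rfl (fun x _ => lap_mulVec W f x)
  have h2 : ∑ x, ∑ y, W x y * (f x - f y) = - ∑ x, ∑ y, W x y * (f x - f y) := by
    conv_lhs => rw [Finset.sum_comm]
    rw [← Finset.sum_neg_distrib]
    refine Finset.sum_congr rfl (fun x _ => ?_)
    rw [← Finset.sum_neg_distrib]
    refine Finset.sum_congr rfl (fun y _ => ?_)
    rw [hW y x]; ring
  rw [h1]; linarith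

theorem trace_lap_WB (B : α → β → ℝ) : Matrix.trace (lap (WB B))
    = (Fintype.card α : ℝ) ^ 2 - (Fintype.card α : ℝ) + 2 * ∑ u, ∑ v, B u v := by
  simp only [Matrix.trace, lap, Matrix.diag_apply, Matrix.sub_apply, Matrix.diagonal_apply_eq,
    Fintype.sum_sum_type, WB_ll, WB_lr, WB_rl, WB_rr, Finset.sum_const, Finset.card_univ,
    nsmul_eq_mul, mul_one, Finset.sum_sub_distrib, Finset.sum_add_distrib, mul_zero, sub_zero,
    add_zero]
  rw [Finset.sum_comm (s := (Finset.univ : Finset β))]
  ring

/-- The trace inequality for split graphs. -/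
theorem trace_split [Nonempty α] [Nonempty β] (B : α → β → ℝ) (h0 : ∀ u v, 0 ≤ B u v)
    (h1 : ∀ u v, B u v ≤ 1) (P : Matrix (α ⊕ β) (α ⊕ β) ℝ) (hs : P.IsSymm) (hP : P * P = P)
    (hrow : ∀ x, ∑ y, P x y = 0) :
    Matrix.trace (P * lap (WB B)) ≤ (Fintype.card α : ℝ) * Matrix.trace P + ∑ u, ∑ v, B u v := by
  classical
  set s : ℝ := (Fintype.card α : ℝ) with hsdef
  set t : ℝ := (Fintype.card β : ℝ) with htdef
  have hWs := WB_symm B
  set K : Matrix (α ⊕ β) (α ⊕ β) ℝ := lap (WB B) - Matrix.of (fun _ _ => 1) with hKdef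
  have hK : K.IsSymm := by
    have h := lap_symm (WB B) hWs
    ext x y
    have := h.apply x y
    simp only [hKdef, Matrix.transpose_apply, Matrix.sub_apply, Matrix.of_apply]
    rw [this]
  obtain ⟨U, κ, hUU, hUU', hKU⟩ := spectral_data K hK
  set e : (α ⊕ β) → (α ⊕ β) → ℝ := fun j x => U x j with he
  have horth : ∀ i j, ∑ x, e i x * e j x = if i = j then 1 else 0 := by
    intro i j
    have h := congrFun (congrFun hUU i) j
    rw [Matrix.mul_apply] at h
    simp only [Matrix.transpose_apply, Matrix.one_apply] at h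
    exact h
  have hKe : ∀ j x, (K *ᵥ e j) x = κ j * e j x := by
    intro j x
    have h : K * U = U * Matrix.diagonal κ := by
      rw [hKU, Matrix.mul_assoc, hUU, Matrix.mul_one]
    have h' := congrFun (congrFun h x) j
    rw [Matrix.mul_diagonal, Matrix.mul_apply] at h'
    simp only [Matrix.mulVec, dotProduct, he]
    rw [h']; ring
  have hLe : ∀ j x, (lap (WB B) *ᵥ e j) x = κ j * e j x + ∑ y, e j y := by
    intro j x
    have h := hKe j x
    have h2 : (K *ᵥ e j) x = (lap (WB B) *ᵥ e j) x - ∑ y, e j y := by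
      rw [hKdef, Matrix.sub_mulVec]
      simp [Matrix.mulVec, dotProduct]
    linarith
  have hcardV : (Fintype.card (α ⊕ β) : ℝ) = s + t := by
    rw [Fintype.card_sum]; push_cast; rfl
  have hspos : 0 < s := by
    rw [hsdef]; exact_mod_cast Fintype.card_pos
  have htpos : 0 < t := by
    rw [htdef]; exact_mod_cast Fintype.card_pos
  -- bad indices
  have hbad : ∀ j, ∑ x, e j x ≠ 0 → κ j = -(s + t) ∧ ∀ x y, e j x = e j y := by
    intro j hj
    have hk : κ j = -(s + t) := by
      have h := sum_lap_mulVec (WB B) hWs (e j)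
      simp only [hLe, Finset.sum_add_distrib, Finset.sum_const, Finset.card_univ, nsmul_eq_mul,
        ← Finset.mul_sum] at h
      rw [hcardV] at h
      have h2 : (κ j + (s + t)) * ∑ x, e j x = 0 := by linarith
      rcases mul_eq_zero.mp h2 with h3 | h3
      · linarith
      · exact absurd h3 hj
    refine ⟨hk, ?_⟩
    have h3 := lap_quad_nonneg (WB B) hWs (WB_nonneg B h0) (e j)
    have h4 : ∑ x, e j x * (lap (WB B) *ᵥ e j) x
        = -(s + t) * ∑ x, e j x * e j x + (∑ x, e j x) ^ 2 := by
      have e2 : ∀ x, e j x * (lap (WB B) *ᵥ e j) x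
          = -(s + t) * (e j x * e j x) + e j x * ∑ y, e j y := fun x => by
        rw [hLe, hk]; ring
      rw [Finset.sum_congr rfl (fun x _ => e2 x), Finset.sum_add_distrib, ← Finset.mul_sum,
        ← Finset.sum_mul]
      ring
    have h5 : ∑ x, ∑ y, (e j x - e j y) ^ 2
        = 2 * ((s + t) * ∑ x, e j x * e j x - (∑ x, e j x) ^ 2) := by
      have : ∀ x y, (e j x - e j y) ^ 2 = e j x * e j x + e j y * e j y - 2 * (e j x * e j y) :=
        fun x y => by ring
      simp only [this, Finset.sum_sub_distrib, Finset.sum_add_distrib, Finset.sum_const,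
        Finset.card_univ, nsmul_eq_mul, ← Finset.mul_sum, ← Finset.sum_mul]
      rw [hcardV]; ring
    have h6 : ∑ x, ∑ y, (e j x - e j y) ^ 2 ≤ 0 := by rw [h5]; rw [h4] at h3; linarith
    intro x y
    have h7 : (e j x - e j y) ^ 2 ≤ ∑ x, ∑ y, (e j x - e j y) ^ 2 := by
      calc (e j x - e j y) ^ 2 ≤ ∑ y, (e j x - e j y) ^ 2 :=
            Finset.single_le_sum (f := fun y => (e j x - e j y) ^ 2)
              (fun _ _ => sq_nonneg _) (Finset.mem_univ y)
        _ ≤ ∑ x, ∑ y, (e j x - e j y) ^ 2 :=
            Finset.single_le_sum (f := fun x => ∑ y, (e j x - e j y) ^ 2)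
              (fun _ _ => Finset.sum_nonneg (fun _ _ => sq_nonneg _)) (Finset.mem_univ x)
    have h8 : (e j x - e j y) ^ 2 = 0 := le_antisymm (h7.trans h6) (sq_nonneg _)
    have := pow_eq_zero_iff (two_ne_zero) |>.mp h8
    linarith
  set bad : Finset (α ⊕ β) := Finset.univ.filter (fun j => ∑ x, e j x ≠ 0) with hbaddef
  set good : Finset (α ⊕ β) := Finset.univ.filter (fun j => ∑ x, e j x = 0) with hgooddef
  have hbadcard : bad.card ≤ 1 := by
    rw [Finset.card_le_one]
    intro i hi j hj
    by_contra hij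
    have hi' := (Finset.mem_filter.mp hi).2
    have hj' := (Finset.mem_filter.mp hj).2
    have h := horth i j
    rw [if_neg hij] at h
    obtain ⟨x0⟩ : Nonempty (α ⊕ β) := ⟨Sum.inl (Classical.arbitrary α)⟩
    have ci := (hbad i hi').2
    have cj := (hbad j hj').2
    have ei : ∑ x, e i x = (s + t) * e i x0 := by
      rw [Finset.sum_congr rfl (fun x _ => ci x x0)]
      simp only [Finset.sum_const, Finset.card_univ, nsmul_eq_mul, hcardV]
    have ej : ∑ x, e j x = (s + t) * e j x0 := by
      rw [Finset.sum_congr rfl (fun x _ => cj x x0)]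
      simp only [Finset.sum_const, Finset.card_univ, nsmul_eq_mul, hcardV]
    have eij : ∑ x, e i x * e j x = (s + t) * (e i x0 * e j x0) := by
      rw [Finset.sum_congr rfl (fun x _ => by rw [ci x x0, cj x x0])]
      simp only [Finset.sum_const, Finset.card_univ, nsmul_eq_mul, hcardV]
    rw [eij] at h
    have h1' : e i x0 ≠ 0 := fun h0 => hi' (by rw [ei, h0, mul_zero])
    have h2' : e j x0 ≠ 0 := fun h0 => hj' (by rw [ej, h0, mul_zero])
    have h3' : (s + t) ≠ 0 := by positivity
    exact (mul_ne_zero h3' (mul_ne_zero h1' h2')) h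
  have hgb : good.card + bad.card = Fintype.card α + Fintype.card β := by
    have h := Finset.card_filter_add_card_filter_not (s := (Finset.univ : Finset (α ⊕ β)))
      (fun j => ∑ x, e j x = 0)
    rw [Finset.card_univ, Fintype.card_sum] at h
    exact h
  -- the diagonal of P in the eigenbasis
  set R : Matrix (α ⊕ β) (α ⊕ β) ℝ := Uᵀ * P * U with hRdef
  have hRs : R.IsSymm := by
    rw [Matrix.IsSymm, hRdef, Matrix.transpose_mul, Matrix.transpose_mul, Matrix.transpose_transpose,
      hs.eq, Matrix.mul_assoc]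
  have hRR : R * R = R := by
    rw [hRdef]
    calc Uᵀ * P * U * (Uᵀ * P * U) = Uᵀ * P * (U * Uᵀ) * P * U := by
          simp only [Matrix.mul_assoc]
      _ = Uᵀ * (P * P) * U := by rw [hUU', Matrix.mul_one]; simp only [Matrix.mul_assoc]
      _ = Uᵀ * P * U := by rw [hP]
  have hc : ∀ j, 0 ≤ R j j ∧ R j j ≤ 1 := idem_diag R hRs hRR
  have hcbad : ∀ j, ∑ x, e j x ≠ 0 → R j j = 0 := by
    intro j hj
    have hcst := (hbad j hj).2
    have h : R j j = ∑ x, U x j * ∑ y, P x y * U y j := by
      rw [hRdef, Matrix.mul_assoc, Matrix.mul_apply]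
      refine Finset.sum_congr rfl (fun x _ => ?_)
      rw [Matrix.transpose_apply, Matrix.mul_apply]
    rw [h]
    refine Finset.sum_eq_zero (fun x _ => ?_)
    have : ∑ y, P x y * U y j = 0 := by
      have h2 : ∀ y, P x y * U y j = P x y * U x j := fun y => by
        have := hcst y x
        simp only [he] at this
        rw [this]
      rw [Finset.sum_congr rfl (fun y _ => h2 y), ← Finset.sum_mul, hrow x, zero_mul]
    rw [this, mul_zero]
  have htrPK : Matrix.trace (P * lap (WB B)) = ∑ j, κ j * R j j := by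
    have h1' : Matrix.trace (P * lap (WB B)) = Matrix.trace (P * K) := by
      rw [hKdef, Matrix.mul_sub, Matrix.trace_sub]
      have : Matrix.trace (P * (Matrix.of (fun _ _ => 1) : Matrix (α ⊕ β) (α ⊕ β) ℝ)) = 0 := by
        simp only [Matrix.trace, Matrix.diag_apply, Matrix.mul_apply, Matrix.of_apply, mul_one]
        exact Finset.sum_eq_zero (fun x _ => hrow x)
      rw [this, sub_zero]
    rw [h1', hKU]
    have h2' : Matrix.trace (P * (U * Matrix.diagonal κ * Uᵀ))
        = Matrix.trace (R * Matrix.diagonal κ) := by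
      calc Matrix.trace (P * (U * Matrix.diagonal κ * Uᵀ))
          = Matrix.trace ((P * U * Matrix.diagonal κ) * Uᵀ) := by simp only [Matrix.mul_assoc]
        _ = Matrix.trace (Uᵀ * (P * U * Matrix.diagonal κ)) := Matrix.trace_mul_comm _ _
        _ = Matrix.trace (R * Matrix.diagonal κ) := by rw [hRdef]; simp only [Matrix.mul_assoc]
    rw [h2']
    simp only [Matrix.trace, Matrix.diag_apply, Matrix.mul_diagonal]
    exact Finset.sum_congr rfl (fun j _ => by ring)
  have htrP : Matrix.trace P = ∑ j, R j j := by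
    have : Matrix.trace R = Matrix.trace P := by
      rw [hRdef, Matrix.mul_assoc, Matrix.trace_mul_comm, Matrix.mul_assoc, hUU', Matrix.mul_one]
    rw [← this]; rfl
  -- reduction to the positive part
  have hsplit : ∀ f : (α ⊕ β) → ℝ, ∑ j, f j = ∑ j ∈ good, f j + ∑ j ∈ bad, f j := by
    intro f
    exact (Finset.sum_filter_add_sum_filter_not Finset.univ (fun j => ∑ x, e j x = 0) f).symm
  set Tp : Finset (α ⊕ β) := good.filter (fun j => s < κ j) with hTp
  set Tz : Finset (α ⊕ β) := good.filter (fun j => ¬ (s < κ j)) with hTz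
  set Tn : Finset (α ⊕ β) := Tz.filter (fun j => κ j < s) with hTn
  have hpz : ∀ f : (α ⊕ β) → ℝ, ∑ j ∈ good, f j = ∑ j ∈ Tp, f j + ∑ j ∈ Tz, f j := by
    intro f
    exact (Finset.sum_filter_add_sum_filter_not good (fun j => s < κ j) f).symm
  have hpzc : Tp.card + Tz.card = good.card := by
    exact Finset.card_filter_add_card_filter_not (s := good) (fun j => s < κ j)
  have hmain : Matrix.trace (P * lap (WB B)) - s * Matrix.trace P ≤ ∑ j ∈ Tp, (κ j - s) := by
    have e1 : Matrix.trace (P * lap (WB B)) - s * Matrix.trace P = ∑ j, (κ j - s) * R j j := by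
      rw [htrPK, htrP, Finset.mul_sum, ← Finset.sum_sub_distrib]
      exact Finset.sum_congr rfl (fun j _ => by ring)
    rw [e1, hsplit, hpz]
    have e2 : ∑ j ∈ bad, (κ j - s) * R j j = 0 := by
      refine Finset.sum_eq_zero (fun j hj => ?_)
      rw [hcbad j (Finset.mem_filter.mp hj).2, mul_zero]
    have e3 : ∑ j ∈ Tz, (κ j - s) * R j j ≤ 0 := by
      refine Finset.sum_nonpos (fun j hj => ?_)
      have h := (Finset.mem_filter.mp hj).2
      exact mul_nonpos_of_nonpos_of_nonneg (by linarith [not_lt.mp h]) (hc j).1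
    have e4 : ∑ j ∈ Tp, (κ j - s) * R j j ≤ ∑ j ∈ Tp, (κ j - s) := by
      refine Finset.sum_le_sum (fun j hj => ?_)
      have h := (Finset.mem_filter.mp hj).2
      nlinarith [(hc j).2]
    rw [e2]; linarith
  -- eigenvector equations in coordinates
  have hgU : ∀ j ∈ good, ∀ u, ∑ u', (e j (Sum.inl u) - e j (Sum.inl u'))
      + ∑ v, B u v * (e j (Sum.inl u) - e j (Sum.inr v)) = κ j * e j (Sum.inl u) := by
    intro j hj u
    have h := hLe j (Sum.inl u)
    rw [(Finset.mem_filter.mp hj).2, add_zero, lap_mulVec, Fintype.sum_sum_type] at h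
    simpa using h
  have hgV : ∀ j ∈ good, ∀ v, ∑ u, B u v * (e j (Sum.inr v) - e j (Sum.inl u))
      = κ j * e j (Sum.inr v) := by
    intro j hj v
    have h := hLe j (Sum.inr v)
    rw [(Finset.mem_filter.mp hj).2, add_zero, lap_mulVec, Fintype.sum_sum_type] at h
    simpa using h
  have hgS : ∀ j ∈ good, ∑ u, e j (Sum.inl u) + ∑ v, e j (Sum.inr v) = 0 := by
    intro j hj
    have h := (Finset.mem_filter.mp hj).2
    rwa [Fintype.sum_sum_type] at h
  -- the swapped family
  set e' : (α ⊕ β) → (β ⊕ α) → ℝ := fun j x => e j x.swap with he'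
  have horth' : ∀ i j, ∑ x, e' i x * e' j x = if i = j then 1 else 0 := by
    intro i j
    rw [← horth i j, Fintype.sum_sum_type, Fintype.sum_sum_type, add_comm]
    simp [he']
  have hswV : ∀ j ∈ good, ∀ u, ∑ v, (1 - B u v) * (e' j (Sum.inr u) - e' j (Sum.inl v))
      = (s + t - κ j) * e' j (Sum.inr u) := by
    intro j hj u
    have h := hgU j hj u
    have h2 := hgS j hj
    simp only [he', Sum.swap_inr, Sum.swap_inl]
    have e1 : ∑ v, (1 - B u v) * (e j (Sum.inl u) - e j (Sum.inr v))
        = t * e j (Sum.inl u) - ∑ v, e j (Sum.inr v)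
          - ∑ v, B u v * (e j (Sum.inl u) - e j (Sum.inr v)) := by
      have : ∀ v, (1 - B u v) * (e j (Sum.inl u) - e j (Sum.inr v))
        = e j (Sum.inl u) - e j (Sum.inr v) - B u v * (e j (Sum.inl u) - e j (Sum.inr v)) :=
        fun v => by ring
      simp only [this, Finset.sum_sub_distrib, Finset.sum_const, Finset.card_univ, nsmul_eq_mul,
        htdef]
    have e2 : ∑ u', (e j (Sum.inl u) - e j (Sum.inl u'))
        = s * e j (Sum.inl u) - ∑ u', e j (Sum.inl u') := by
      simp only [Finset.sum_sub_distrib, Finset.sum_const, Finset.card_univ, nsmul_eq_mul, hsdef]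
    rw [e1]; rw [e2] at h
    linarith
  have hswU : ∀ j ∈ good, ∀ v, ∑ v', (e' j (Sum.inl v) - e' j (Sum.inl v'))
      + ∑ u, (1 - B u v) * (e' j (Sum.inl v) - e' j (Sum.inr u))
      = (s + t - κ j) * e' j (Sum.inl v) := by
    intro j hj v
    have h := hgV j hj v
    have h2 := hgS j hj
    simp only [he', Sum.swap_inr, Sum.swap_inl]
    have e1 : ∑ u, (1 - B u v) * (e j (Sum.inr v) - e j (Sum.inl u))
        = s * e j (Sum.inr v) - ∑ u, e j (Sum.inl u)
          - ∑ u, B u v * (e j (Sum.inr v) - e j (Sum.inl u)) := by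
      have : ∀ u, (1 - B u v) * (e j (Sum.inr v) - e j (Sum.inl u))
        = e j (Sum.inr v) - e j (Sum.inl u) - B u v * (e j (Sum.inr v) - e j (Sum.inl u)) :=
        fun u => by ring
      simp only [this, Finset.sum_sub_distrib, Finset.sum_const, Finset.card_univ, nsmul_eq_mul,
        hsdef]
    have e2 : ∑ v', (e j (Sum.inr v) - e j (Sum.inr v'))
        = t * e j (Sum.inr v) - ∑ v', e j (Sum.inr v') := by
      simp only [Finset.sum_sub_distrib, Finset.sum_const, Finset.card_univ, nsmul_eq_mul, htdef]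
    rw [e1, e2]
    linarith
  have hTpg : Tp ⊆ good := Finset.filter_subset _ _
  have hTzg : Tz ⊆ good := Finset.filter_subset _ _
  have hTng : Tn ⊆ good := (Finset.filter_subset _ _).trans hTzg
  have hcardp : Tp.card ≤ Fintype.card α :=
    card_le_of_gt B h1 e κ Tp (fun i hi => hgV i (hTpg hi)) (fun i _ j _ => horth i j)
      (fun i hi => (Finset.mem_filter.mp hi).2)
  have hcardn : Tn.card ≤ Fintype.card β :=
    card_le_of_gt (fun v u => 1 - B u v) (fun v u => by linarith [h0 u v]) e'
      (fun j => s + t - κ j) Tn (fun i hi => hswV i (hTng hi)) (fun i _ j _ => horth' i j)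
      (fun i hi => by
        have := (Finset.mem_filter.mp hi).2
        rw [← htdef]; linarith)
  suffices h : ∑ j ∈ Tp, (κ j - s) ≤ ∑ u, ∑ v, B u v by linarith
  by_cases hcase : Tp.card = Fintype.card α
  · -- exactly `s` large eigenvalues
    have h := split_sum_T B h0 h1 e κ Tp hcase (fun i hi => hgU i (hTpg hi))
      (fun i hi => hgV i (hTpg hi)) (fun i hi => (Finset.mem_filter.mp (hTpg hi)).2)
      (fun i _ j _ => horth i j)
    rw [Finset.sum_sub_distrib, Finset.sum_const, nsmul_eq_mul, hcase]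
    rw [← hsdef] at h ⊢
    nlinarith
  · -- use the complement
    have hlt : Tp.card < Fintype.card α := lt_of_le_of_ne hcardp hcase
    have hz : Fintype.card β ≤ Tz.card := by omega
    obtain ⟨T, hnT, hTz', hTc⟩ := Finset.exists_subsuperset_card_eq
      (Finset.filter_subset (fun j => κ j < s) Tz) hcardn hz
    have hTg : T ⊆ good := hTz'.trans hTzg
    have h := split_sum_T (α := β) (β := α) (fun v u => 1 - B u v)
      (fun v u => by linarith [h1 u v]) (fun v u => by linarith [h0 u v]) e'
      (fun j => s + t - κ j) T hTc (fun i hi => hswU i (hTg hi)) (fun i hi => hswV i (hTg hi))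
      (fun i hi => by
        have h2 := hgS i (hTg hi)
        rw [Fintype.sum_sum_type]
        simp only [he', Sum.swap_inr, Sum.swap_inl]
        linarith) (fun i _ j _ => horth' i j)
    rw [← htdef] at h
    have hB' : ∑ v, ∑ u, (1 - B u v) = t * s - ∑ u, ∑ v, B u v := by
      simp only [Finset.sum_sub_distrib, Finset.sum_const, Finset.card_univ, nsmul_eq_mul, mul_one]
      rw [Finset.sum_comm, ← htdef, ← hsdef]
    rw [hB'] at h
    have hT1 : ∑ j ∈ T, (s + t - κ j) = t * t + ∑ j ∈ T, (s - κ j) := by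
      have : ∀ j, s + t - κ j = t + (s - κ j) := fun j => by ring
      rw [Finset.sum_congr rfl (fun j _ => this j), Finset.sum_add_distrib, Finset.sum_const,
        nsmul_eq_mul, hTc]
    rw [hT1] at h
    have hT2 : ∑ j ∈ Tz, (s - κ j) ≤ ∑ j ∈ T, (s - κ j) := by
      have e1 : ∑ j ∈ Tn, (s - κ j) = ∑ j ∈ Tz, (s - κ j) := by
        refine Finset.sum_subset (Finset.filter_subset _ _) (fun j hj hj' => ?_)
        have a1 := (Finset.mem_filter.mp hj).2
        have a2 : ¬ (κ j < s) := fun hlt' => hj' (Finset.mem_filter.mpr ⟨hj, hlt'⟩)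
        have : κ j = s := le_antisymm (not_lt.mp a1) (not_lt.mp a2)
        rw [this, sub_self]
      rw [← e1]
      refine Finset.sum_le_sum_of_subset_of_nonneg hnT (fun j hj _ => ?_)
      have a1 := (Finset.mem_filter.mp (hTz' hj)).2
      linarith [not_lt.mp a1]
    have htrK : ∑ j, κ j = s ^ 2 - s + 2 * ∑ u, ∑ v, B u v - (s + t) := by
      have e1 : Matrix.trace K = ∑ j, κ j := by
        rw [hKU, Matrix.trace_mul_comm, ← Matrix.mul_assoc, hUU, Matrix.one_mul,
          Matrix.trace_diagonal]
      rw [← e1, hKdef, Matrix.trace_sub, trace_lap_WB]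
      have e2 : Matrix.trace (Matrix.of (fun _ _ => 1) : Matrix (α ⊕ β) (α ⊕ β) ℝ) = s + t := by
        simp only [Matrix.trace, Matrix.diag_apply, Matrix.of_apply, Finset.sum_const,
          Finset.card_univ, nsmul_eq_mul, mul_one, hcardV]
      rw [e2]
    have hbadsum : ∑ j ∈ bad, κ j = -(s + t) * (bad.card : ℝ) := by
      rw [Finset.sum_congr rfl (fun j hj => (hbad j (Finset.mem_filter.mp hj).2).1),
        Finset.sum_const, nsmul_eq_mul]
      ring
    have hgoodsum : ∑ j ∈ good, κ j ≤ s ^ 2 - s + 2 * ∑ u, ∑ v, B u v := by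
      have h2 := hsplit κ
      rw [htrK, hbadsum] at h2
      have h3 : (bad.card : ℝ) ≤ 1 := by exact_mod_cast hbadcard
      nlinarith
    have hgoodcard : (good.card : ℝ) ≥ s + t - 1 := by
      have h2 : (good.card : ℝ) + (bad.card : ℝ) = s + t := by
        have := congrArg (fun k : ℕ => (k : ℝ)) hgb
        push_cast at this
        rw [this]
      have h3 : (bad.card : ℝ) ≤ 1 := by exact_mod_cast hbadcard
      linarith
    have hfinal := hpz (fun j => κ j - s)
    rw [Finset.sum_sub_distrib, Finset.sum_const, nsmul_eq_mul] at hfinal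
    have hneg : ∑ j ∈ Tz, (κ j - s) = - ∑ j ∈ Tz, (s - κ j) := by
      rw [← Finset.sum_neg_distrib]
      exact Finset.sum_congr rfl (fun j _ => by ring)
    rw [hneg] at hfinal
    nlinarith

end Pool.Agent.Helper8.BR
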