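import Pool.Agent.Helper8.BR.Cut

/-!
The inequality `sum over ordered pairs of (D - 1)_+ <= k (k + 1)` for every orthogonal projection
of rank `k` killing the constant vector.
-/

set_option autoImplicit false

namespace Pool.Agent.Helper8.BR

open Matrix Finset

variable {V : Type*} [Fintype V] [DecidableEq V]

/-- Sums of `h (x, y)` over a cut, as a double sum with indicators. -/
theorem layer (m : V → V → ℝ) (hm : ∀ x y, m x y = m y x) (p : V → ℝ)
    (hcut : ∀ U : Finset V, ∑ u ∈ U, ∑ v ∈ Uᶜ, (p u - p v) ≤ ∑ u ∈ U, ∑ v ∈ Uᶜ, m u v)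
    (f : V → ℝ) (hf : ∀ x, 0 ≤ f x) :
    ∑ x, ∑ y, (p x - p y) * (f x - f y) ≤ ∑ x, ∑ y, m x y * |f x - f y| := by
  classical
  -- induction on the size of the support
  suffices H : ∀ N : ℕ, ∀ f : V → ℝ, (∀ x, 0 ≤ f x) →
      (Finset.univ.filter (fun x => 0 < f x)).card = N →
      ∑ x, ∑ y, (p x - p y) * (f x - f y) ≤ ∑ x, ∑ y, m x y * |f x - f y| from
    H _ f hf rfl
  intro N
  induction N using Nat.strong_induction_on with
  | _ N ih =>
    intro f hf hN
    set U : Finset V := Finset.univ.filter (fun x => 0 < f x) with hU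
    rcases U.eq_empty_or_nonempty with hE | hE
    · have hz : ∀ x, f x = 0 := by
        intro x
        by_contra hne
        have : x ∈ U := by
          rw [hU, Finset.mem_filter]
          exact ⟨Finset.mem_univ x, lt_of_le_of_ne (hf x) (Ne.symm hne)⟩
        rw [hE] at this
        exact absurd this (Finset.notMem_empty x)
      simp [hz]
    · obtain ⟨x0, hx0, hmin⟩ := Finset.exists_min_image U f hE
      set c : ℝ := f x0 with hc
      have hcpos : 0 < c := (Finset.mem_filter.mp hx0).2
      set ind : V → ℝ := fun x => if x ∈ U then 1 else 0 with hind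
      set f' : V → ℝ := fun x => f x - c * ind x with hf'
      have hfU : ∀ x, x ∉ U → f x = 0 := by
        intro x hx
        by_contra hne
        exact hx (Finset.mem_filter.mpr ⟨Finset.mem_univ x, lt_of_le_of_ne (hf x) (Ne.symm hne)⟩)
      have hf'0 : ∀ x, 0 ≤ f' x := by
        intro x
        by_cases hx : x ∈ U
        · simp only [hf', hind, hx, if_true, mul_one]
          linarith [hmin x hx]
        · simp only [hf', hind, hx, if_false, mul_zero, sub_zero]
          exact hf x
      have hf'U : ∀ x, x ∉ U → f' x = 0 := by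
        intro x hx
        simp only [hf', hind, hx, if_false, mul_zero, sub_zero]
        exact hfU x hx
      have hlt : (Finset.univ.filter (fun x => 0 < f' x)).card < N := by
        rw [← hN]
        refine Finset.card_lt_card ?_
        rw [Finset.ssubset_iff_of_subset]
        · refine ⟨x0, hx0, ?_⟩
          intro hcon
          have := (Finset.mem_filter.mp hcon).2
          simp only [hf', hind, hx0, if_true, mul_one, ← hc, sub_self] at this
          exact lt_irrefl _ this
        · intro x hx
          by_contra hxU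
          have := (Finset.mem_filter.mp hx).2
          rw [hf'U x hxU] at this
          exact lt_irrefl _ this
      have h1 := ih _ hlt f' hf'0 rfl
      have habs : ∀ x y, |f x - f y| = c * |ind x - ind y| + |f' x - f' y| := by
        intro x y
        by_cases hx : x ∈ U <;> by_cases hy : y ∈ U
        · simp only [hf', hind, hx, hy, if_true, mul_one, sub_self, abs_zero, mul_zero, zero_add]
          congr 1; ring
        · have ey := hfU y hy
          simp only [hf', hind, hx, hy, if_true, if_false, mul_one, mul_zero, sub_zero, ey]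
          rw [abs_of_nonneg (hf x), abs_one, mul_one, abs_of_nonneg (by linarith [hmin x hx])]
          ring
        · have ex := hfU x hx
          simp only [hf', hind, hx, hy, if_true, if_false, mul_one, mul_zero, sub_zero, ex,
            zero_sub, abs_neg, abs_one]
          rw [abs_of_nonneg (hf y), abs_of_nonneg (by linarith [hmin y hy])]
          ring
        · have ex := hfU x hx
          have ey := hfU y hy
          simp [hf', hind, hx, hy, ex, ey]
      have hlin : ∀ x y, f x - f y = c * (ind x - ind y) + (f' x - f' y) := by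
        intro x y
        simp only [hf']; ring
      have hL : ∑ x, ∑ y, (p x - p y) * (f x - f y)
          = c * (∑ x, ∑ y, (p x - p y) * (ind x - ind y))
            + ∑ x, ∑ y, (p x - p y) * (f' x - f' y) := by
        rw [Finset.mul_sum, ← Finset.sum_add_distrib]
        refine Finset.sum_congr rfl (fun x _ => ?_)
        rw [Finset.mul_sum, ← Finset.sum_add_distrib]
        refine Finset.sum_congr rfl (fun y _ => ?_)
        rw [hlin]; ring
      have hR : ∑ x, ∑ y, m x y * |f x - f y|
          = c * (∑ x, ∑ y, m x y * |ind x - ind y|) + ∑ x, ∑ y, m x y * |f' x - f' y| := by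
        rw [Finset.mul_sum, ← Finset.sum_add_distrib]
        refine Finset.sum_congr rfl (fun x _ => ?_)
        rw [Finset.mul_sum, ← Finset.sum_add_distrib]
        refine Finset.sum_congr rfl (fun y _ => ?_)
        rw [habs]; ring
      -- indicator sums
      have hgen : ∀ g : V → V → ℝ, (∀ x ∈ U, ∀ y ∈ U, g x y = 0) →
          (∀ x, x ∉ U → ∀ y, y ∉ U → g x y = 0) → (∀ x y, g x y = g y x) →
          ∑ x, ∑ y, g x y = 2 * ∑ u ∈ U, ∑ v ∈ Uᶜ, g u v := by
        intro g g1 g2 g3
        have s1 : ∀ x, ∑ y, g x y = ∑ y ∈ U, g x y + ∑ y ∈ Uᶜ, g x y := fun x =>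
          (Finset.sum_add_sum_compl U _).symm
        rw [← Finset.sum_add_sum_compl U]
        have s2 : ∑ x ∈ U, ∑ y, g x y = ∑ u ∈ U, ∑ v ∈ Uᶜ, g u v := by
          refine Finset.sum_congr rfl (fun x hx => ?_)
          rw [s1, Finset.sum_eq_zero (fun y hy => g1 x hx y hy), zero_add]
        have s3 : ∑ x ∈ Uᶜ, ∑ y, g x y = ∑ u ∈ U, ∑ v ∈ Uᶜ, g u v := by
          have : ∑ x ∈ Uᶜ, ∑ y, g x y = ∑ x ∈ Uᶜ, ∑ y ∈ U, g x y := by
            refine Finset.sum_congr rfl (fun x hx => ?_)
            rw [s1, Finset.sum_eq_zero (s := Uᶜ)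
              (fun y hy => g2 x (Finset.mem_compl.mp hx) y (Finset.mem_compl.mp hy)), add_zero]
          rw [this, Finset.sum_comm]
          exact Finset.sum_congr rfl (fun x _ => Finset.sum_congr rfl (fun y _ => g3 y x))
        rw [s2, s3]; ring
      have hI1 : ∑ x, ∑ y, (p x - p y) * (ind x - ind y) = 2 * ∑ u ∈ U, ∑ v ∈ Uᶜ, (p u - p v) := by
        rw [hgen (fun x y => (p x - p y) * (ind x - ind y))
          (fun x hx y hy => by simp [hind, hx, hy]) (fun x hx y hy => by simp [hind, hx, hy])
          (fun x y => by ring)]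
        congr 1
        refine Finset.sum_congr rfl (fun x hx => Finset.sum_congr rfl (fun y hy => ?_))
        simp [hind, hx, Finset.mem_compl.mp hy]
      have hI2 : ∑ x, ∑ y, m x y * |ind x - ind y| = 2 * ∑ u ∈ U, ∑ v ∈ Uᶜ, m u v := by
        rw [hgen (fun x y => m x y * |ind x - ind y|)
          (fun x hx y hy => by simp [hind, hx, hy]) (fun x hx y hy => by simp [hind, hx, hy])
          (fun x y => by rw [hm x y, abs_sub_comm])]
        congr 1
        refine Finset.sum_congr rfl (fun x hx => Finset.sum_congr rfl (fun y hy => ?_))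
        simp [hind, hx, Finset.mem_compl.mp hy]
      rw [hL, hR, hI1, hI2]
      have := mul_le_mul_of_nonneg_left (hcut U) hcpos.le
      linarith

/-- For a projection, `D` lies in `[0, 2]`. -/
theorem DD_bounds (P : Matrix V V ℝ) (hs : P.IsSymm) (hP : P * P = P) (x y : V) :
    0 ≤ DD P x y ∧ DD P x y ≤ 2 := by
  have e : ∀ a b, P a b = ∑ z, P a z * P b z := by
    intro a b
    have h := congrFun (congrFun hP a) b
    rw [Matrix.mul_apply] at h
    rw [← h]
    exact Finset.sum_congr rfl (fun z _ => by rw [hs.apply b z])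
  have h1 : DD P x y = ∑ z, (P x z - P y z) ^ 2 := by
    rw [DD, e x x, e y y, e x y, Finset.mul_sum, ← Finset.sum_add_distrib, ← Finset.sum_sub_distrib]
    exact Finset.sum_congr rfl (fun z _ => by ring)
  refine ⟨by rw [h1]; exact Finset.sum_nonneg (fun z _ => sq_nonneg _), ?_⟩
  by_cases hxy : x = y
  · subst hxy
    have : DD P x x = 0 := by rw [DD]; ring
    rw [this]; norm_num
  -- `d = D(x,y)`; `(P x x - P x y) - (P y x - P y y) = d`, so `d^2 <= 2 d`
  have h2 : (P x x - P y x) ^ 2 + (P x y - P y y) ^ 2 ≤ DD P x y := by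
    rw [h1]
    have hsub : ({x, y} : Finset V) ⊆ Finset.univ := Finset.subset_univ _
    have := Finset.sum_le_sum_of_subset_of_nonneg (f := fun z => (P x z - P y z) ^ 2) hsub
      (fun z _ _ => sq_nonneg _)
    rwa [Finset.sum_pair hxy] at this
  have h3 : P y x = P x y := hs.apply x y
  rw [h3] at h2
  have h4 : DD P x y = (P x x - P x y) - (P x y - P y y) := by rw [DD]; ring
  have h5 : DD P x y ^ 2 ≤ 2 * DD P x y := by
    have : DD P x y ^ 2 ≤ 2 * ((P x x - P x y) ^ 2 + (P x y - P y y) ^ 2) := by
      rw [h4]; nlinarith [sq_nonneg ((P x x - P x y) + (P x y - P y y))]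
    linarith
  by_contra hcon
  push Not at hcon
  nlinarith

/-- The second moment identity. -/
theorem sum_sq_DD (P : Matrix V V ℝ) (hs : P.IsSymm) (hP : P * P = P)
    (hrow : ∀ x, ∑ y, P x y = 0) :
    ∑ x, ∑ y, DD P x y ^ 2 = ∑ x, ∑ y, (P x x - P y y) ^ 2
      + 4 * (Matrix.trace P * (Matrix.trace P + 1)) := by
  have e1 : ∀ x y, DD P x y ^ 2 = (P x x - P y y) ^ 2 + 4 * (P x x * P y y) + 4 * (P x y * P y x)
      - 4 * (P x x * P x y) - 4 * (P y y * P y x) := by
    intro x y
    have : P y x = P x y := hs.apply x y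
    rw [DD, this]; ring
  have t1 : ∑ x, ∑ y, 4 * (P x x * P y y) = 4 * (Matrix.trace P * Matrix.trace P) := by
    have : ∀ x, ∑ y, 4 * (P x x * P y y) = P x x * (4 * Matrix.trace P) := by
      intro x
      rw [← Finset.mul_sum, ← Finset.mul_sum]
      simp only [Matrix.trace, Matrix.diag_apply]; ring
    rw [Finset.sum_congr rfl (fun x _ => this x), ← Finset.sum_mul]
    simp only [Matrix.trace, Matrix.diag_apply]; ring
  have t2 : ∑ x, ∑ y, 4 * (P x y * P y x) = 4 * Matrix.trace P := by
    simp only [← Finset.mul_sum]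
    congr 1
    simp only [Matrix.trace, Matrix.diag_apply]
    refine Finset.sum_congr rfl (fun x _ => ?_)
    have h := congrFun (congrFun hP x) x
    rw [Matrix.mul_apply] at h
    exact h
  have t3 : ∑ x, ∑ y, 4 * (P x x * P x y) = 0 := by
    refine Finset.sum_eq_zero (fun x _ => ?_)
    rw [← Finset.mul_sum, ← Finset.mul_sum, hrow x, mul_zero, mul_zero]
  have t4 : ∑ x, ∑ y, 4 * (P y y * P y x) = 0 := by
    rw [Finset.sum_comm]
    exact t3
  have e2 : ∑ x, ∑ y, DD P x y ^ 2 = ∑ x, ∑ y, (P x x - P y y) ^ 2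
      + ∑ x, ∑ y, 4 * (P x x * P y y) + ∑ x, ∑ y, 4 * (P x y * P y x)
      - ∑ x, ∑ y, 4 * (P x x * P x y) - ∑ x, ∑ y, 4 * (P y y * P y x) := by
    simp only [← Finset.sum_add_distrib, ← Finset.sum_sub_distrib]
    exact Finset.sum_congr rfl (fun x _ => Finset.sum_congr rfl (fun y _ => e1 x y))
  rw [e2, t1, t2, t3, t4]
  ring

/-- **The projection form of Brouwer's inequality.** -/
theorem proj_bound (P : Matrix V V ℝ) (hs : P.IsSymm) (hP : P * P = P)
    (hrow : ∀ x, ∑ y, P x y = 0) :
    ∑ x, ∑ y, max (DD P x y - 1) 0 ≤ Matrix.trace P * (Matrix.trace P + 1) := by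
  classical
  have hm : ∀ x y, min (DD P x y) (2 - DD P x y) = min (DD P y x) (2 - DD P y x) := by
    intro x y
    have : DD P y x = DD P x y := by rw [DD, DD, hs.apply x y]; ring
    rw [this]
  have hlayer := layer (fun x y => min (DD P x y) (2 - DD P x y)) hm (fun x => P x x)
    (fun U => cut_ineq P hs hP hrow U) (fun x => P x x) (fun x => (idem_diag P hs hP x).1)
  have h1 : ∑ x, ∑ y, (P x x - P y y) ^ 2
      ≤ ∑ x, ∑ y, (min (DD P x y) (2 - DD P x y)) ^ 2 := by
    have h2 : ∑ x, ∑ y, (P x x - P y y) * (P x x - P y y)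
        = ∑ x, ∑ y, (P x x - P y y) ^ 2 :=
      Finset.sum_congr rfl (fun x _ => Finset.sum_congr rfl (fun y _ => by ring))
    rw [h2] at hlayer
    have h3 : 2 * ∑ x, ∑ y, min (DD P x y) (2 - DD P x y) * |P x x - P y y|
        ≤ ∑ x, ∑ y, (min (DD P x y) (2 - DD P x y)) ^ 2 + ∑ x, ∑ y, (P x x - P y y) ^ 2 := by
      rw [Finset.mul_sum, ← Finset.sum_add_distrib]
      refine Finset.sum_le_sum (fun x _ => ?_)
      rw [Finset.mul_sum, ← Finset.sum_add_distrib]
      refine Finset.sum_le_sum (fun y _ => ?_)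
      have := sq_nonneg (min (DD P x y) (2 - DD P x y) - |P x x - P y y|)
      have e := sq_abs (P x x - P y y)
      nlinarith
    linarith
  have h4 : ∀ x y, 4 * max (DD P x y - 1) 0
      = DD P x y ^ 2 - (min (DD P x y) (2 - DD P x y)) ^ 2 := by
    intro x y
    rw [min_eq_sub]
    rcases le_total (DD P x y) 1 with h | h
    · rw [max_eq_right (by linarith)]; ring
    · rw [max_eq_left (by linarith)]; ring
  have h5 : 4 * ∑ x, ∑ y, max (DD P x y - 1) 0
      = ∑ x, ∑ y, DD P x y ^ 2 - ∑ x, ∑ y, (min (DD P x y) (2 - DD P x y)) ^ 2 := by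
    rw [Finset.mul_sum, ← Finset.sum_sub_distrib]
    refine Finset.sum_congr rfl (fun x _ => ?_)
    rw [Finset.mul_sum, ← Finset.sum_sub_distrib]
    exact Finset.sum_congr rfl (fun y _ => h4 x y)
  rw [sum_sq_DD P hs hP hrow] at h5
  linarith

end Pool.Agent.Helper8.BR
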