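import Pool.Agent.Helper8.BR.Det

/-!
From the determinant maximum principle to the trace inequality
`tr (P L) <= s * tr P + |E|` for split graphs with a clique of size `s`.
-/

set_option autoImplicit false

namespace Pool.Agent.Helper8.BR

open Matrix Finset

section general

variable {V : Type*} [Fintype V] [DecidableEq V]

/-- Weighted Laplacian; the diagonal entries of `W` play no role. -/
def lap (W : Matrix V V ℝ) : Matrix V V ℝ := Matrix.diagonal (fun x => ∑ y, W x y) - W

theorem lap_mulVec (W : Matrix V V ℝ) (f : V → ℝ) (x : V) :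
    (lap W *ᵥ f) x = ∑ y, W x y * (f x - f y) := by
  simp only [lap, Matrix.sub_mulVec, Pi.sub_apply, Matrix.mulVec_diagonal]
  simp only [Matrix.mulVec, dotProduct, mul_sub, Finset.sum_sub_distrib, Finset.sum_mul]

theorem lap_symm (W : Matrix V V ℝ) (hW : ∀ x y, W x y = W y x) : (lap W).IsSymm := by
  ext x y
  simp only [lap, Matrix.transpose_apply, Matrix.sub_apply, Matrix.diagonal_apply]
  rw [hW y x]
  by_cases h : x = y
  · subst h; simp
  · simp [h, Ne.symm h]

theorem lap_quad (W : Matrix V V ℝ) (hW : ∀ x y, W x y = W y x) (f : V → ℝ) :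
    ∑ x, f x * (lap W *ᵥ f) x = (1 / 2) * ∑ x, ∑ y, W x y * (f x - f y) ^ 2 := by
  have h1 : ∑ x, f x * (lap W *ᵥ f) x = ∑ x, ∑ y, W x y * (f x * (f x - f y)) := by
    refine Finset.sum_congr rfl (fun x _ => ?_)
    rw [lap_mulVec, Finset.mul_sum]
    exact Finset.sum_congr rfl (fun y _ => by ring)
  have h2 : ∑ x, ∑ y, W x y * (f x * (f x - f y)) = ∑ x, ∑ y, W x y * (f y * (f y - f x)) := by
    rw [Finset.sum_comm]
    refine Finset.sum_congr rfl (fun x _ => Finset.sum_congr rfl (fun y _ => ?_))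
    rw [hW y x]
  have h3 : ∑ x, ∑ y, W x y * (f x - f y) ^ 2
      = ∑ x, ∑ y, W x y * (f x * (f x - f y)) + ∑ x, ∑ y, W x y * (f y * (f y - f x)) := by
    rw [← Finset.sum_add_distrib]
    refine Finset.sum_congr rfl (fun x _ => ?_)
    rw [← Finset.sum_add_distrib]
    exact Finset.sum_congr rfl (fun y _ => by ring)
  rw [h1, h3, ← h2]; ring

theorem lap_quad_nonneg (W : Matrix V V ℝ) (hW : ∀ x y, W x y = W y x) (h0 : ∀ x y, 0 ≤ W x y)
    (f : V → ℝ) : 0 ≤ ∑ x, f x * (lap W *ᵥ f) x := by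
  rw [lap_quad W hW]
  refine mul_nonneg (by norm_num) (Finset.sum_nonneg (fun x _ => Finset.sum_nonneg (fun y _ => ?_)))
  exact mul_nonneg (h0 x y) (sq_nonneg _)

/-- Spectral theorem in the form needed. -/
theorem spectral_data (K : Matrix V V ℝ) (hK : K.IsSymm) :
    ∃ (U : Matrix V V ℝ) (κ : V → ℝ), Uᵀ * U = 1 ∧ U * Uᵀ = 1 ∧ K = U * Matrix.diagonal κ * Uᵀ := by
  have hH : K.IsHermitian := by
    rw [Matrix.IsHermitian, Matrix.conjTranspose_eq_transpose_of_trivial]; exact hK
  refine ⟨(hH.eigenvectorUnitary : Matrix V V ℝ), hH.eigenvalues, ?_, ?_, ?_⟩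
  · have h := (Unitary.mem_iff.mp hH.eigenvectorUnitary.2).1
    rwa [Matrix.star_eq_conjTranspose, Matrix.conjTranspose_eq_transpose_of_trivial] at h
  · have h := (Unitary.mem_iff.mp hH.eigenvectorUnitary.2).2
    rwa [Matrix.star_eq_conjTranspose, Matrix.conjTranspose_eq_transpose_of_trivial] at h
  · have h := hH.spectral_theorem
    rw [Unitary.conjStarAlgAut_apply] at h
    rw [Matrix.star_eq_conjTranspose, Matrix.conjTranspose_eq_transpose_of_trivial] at h
    simpa using h

/-- Diagonal entries of a symmetric idempotent matrix. -/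
theorem idem_diag (R : Matrix V V ℝ) (hs : R.IsSymm) (hR : R * R = R) (j : V) :
    0 ≤ R j j ∧ R j j ≤ 1 := by
  have h1 : R j j = ∑ i, R j i ^ 2 := by
    have h := congrFun (congrFun hR j) j
    rw [Matrix.mul_apply] at h
    rw [← h]
    refine Finset.sum_congr rfl (fun i _ => ?_)
    rw [hs.apply j i]; ring
  have h2 : R j j ^ 2 ≤ R j j := by
    conv_rhs => rw [h1]
    exact Finset.single_le_sum (f := fun i => R j i ^ 2) (fun i _ => sq_nonneg _) (Finset.mem_univ j)
  constructor
  · rw [h1]; exact Finset.sum_nonneg (fun i _ => sq_nonneg _)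
  · nlinarith

end general

section split

variable {α β : Type*} [Fintype α] [DecidableEq α] [Fintype β] [DecidableEq β]

/-- Weight matrix of a split graph: a clique on `α` and weights `B` between `α` and `β`. -/
def WB (B : α → β → ℝ) : Matrix (α ⊕ β) (α ⊕ β) ℝ :=
  Matrix.fromBlocks (Matrix.of fun _ _ => 1) (Matrix.of B) (Matrix.of B)ᵀ 0

@[simp] theorem WB_ll (B : α → β → ℝ) (u u' : α) : WB B (Sum.inl u) (Sum.inl u') = 1 := by simp [WB]
@[simp] theorem WB_lr (B : α → β → ℝ) (u : α) (v : β) : WB B (Sum.inl u) (Sum.inr v) = B u v := by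
  simp [WB]
@[simp] theorem WB_rl (B : α → β → ℝ) (u : α) (v : β) : WB B (Sum.inr v) (Sum.inl u) = B u v := by
  simp [WB]
@[simp] theorem WB_rr (B : α → β → ℝ) (v v' : β) : WB B (Sum.inr v) (Sum.inr v') = 0 := by simp [WB]

theorem WB_symm (B : α → β → ℝ) (x y : α ⊕ β) : WB B x y = WB B y x := by
  rcases x with u | v <;> rcases y with u' | v' <;> simp

theorem WB_nonneg (B : α → β → ℝ) (h0 : ∀ u v, 0 ≤ B u v) (x y : α ⊕ β) : 0 ≤ WB B x y := by
  rcases x with u | v <;> rcases y with u' | v' <;> simp [h0]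

/-- `split_sum` for a finite family of orthonormal eigenvectors. -/
theorem split_sum_T [Nonempty β] (B : α → β → ℝ) (h0 : ∀ u v, 0 ≤ B u v) (h1 : ∀ u v, B u v ≤ 1)
    {ι : Type*} [DecidableEq ι] (e : ι → α ⊕ β → ℝ) (lam : ι → ℝ) (T : Finset ι)
    (hT : T.card = Fintype.card α)
    (hU : ∀ i ∈ T, ∀ u, ∑ u', (e i (Sum.inl u) - e i (Sum.inl u'))
      + ∑ v, B u v * (e i (Sum.inl u) - e i (Sum.inr v)) = lam i * e i (Sum.inl u))
    (hV : ∀ i ∈ T, ∀ v, ∑ u, B u v * (e i (Sum.inr v) - e i (Sum.inl u)) = lam i * e i (Sum.inr v))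
    (hsum : ∀ i ∈ T, ∑ x, e i x = 0)
    (horth : ∀ i ∈ T, ∀ j ∈ T, ∑ x, e i x * e j x = if i = j then 1 else 0) :
    ∑ i ∈ T, lam i ≤ (Fintype.card α : ℝ) ^ 2 + ∑ u, ∑ v, B u v := by
  classical
  let σ : α ≃ T := Fintype.equivOfCardEq (by simp [hT])
  have key := split_sum (α := α) (β := β) B h0 h1 (fun i u => e (σ i) (Sum.inl u))
    (fun i v => e (σ i) (Sum.inr v)) (fun i => lam (σ i)) (fun i u => hU _ (σ i).2 u)
    (fun i v => hV _ (σ i).2 v) (fun i => by
      have := hsum _ (σ i).2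
      rwa [Fintype.sum_sum_type] at this)
    (fun c hc1 hc2 => by
      funext j
      have h3 : ∑ x, (∑ i, c i * e (σ i) x) * e (σ j) x = 0 := by
        refine Finset.sum_eq_zero (fun x _ => ?_)
        rcases x with u | v
        · rw [hc1 u, zero_mul]
        · rw [hc2 v, zero_mul]
      have h4 : ∑ x, (∑ i, c i * e (σ i) x) * e (σ j) x = c j := by
        calc ∑ x, (∑ i, c i * e (σ i) x) * e (σ j) x
            = ∑ i, c i * ∑ x, e (σ i) x * e (σ j) x := by
              simp only [Finset.sum_mul, Finset.mul_sum]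
              rw [Finset.sum_comm]
              exact Finset.sum_congr rfl (fun i _ => Finset.sum_congr rfl (fun x _ => by ring))
          _ = ∑ i, c i * (if i = j then 1 else 0) := by
              refine Finset.sum_congr rfl (fun i _ => ?_)
              rw [horth _ (σ i).2 _ (σ j).2]
              have : ((σ i : T) : ι) = (σ j : T) ↔ i = j := by
                rw [← Subtype.ext_iff]
                exact σ.injective.eq_iff
              simp only [this]
          _ = c j := by simp
      rw [← h4, h3]; rfl)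
  have h5 : ∑ i ∈ T, lam i = ∑ i : α, lam (σ i) := by
    rw [← Finset.sum_coe_sort T, ← Equiv.sum_comp σ]
  rw [h5]; exact key

end split

end Pool.Agent.Helper8.BR
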